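import Pool.Agent.Helper88.D4.Stmts6
import Pool.Agent.Helper11.D4.EX1
import Pool.Agent.Helper94.D4.Wts

/-!
# Project D4 (MP_e1889a_ag): twisted iterates of a fractional derivation
-/

set_option autoImplicit false

namespace Pool.Agent.Helper79.TWS

open Module Pool.Agent.Helper37.SD Pool.Agent.Helper20.TS Pool.Agent.Helper88.D4

variable {K : Type} [Field K] [Algebra ℂ K]

theorem val_one (u : RVal K) : u.val 1 = 0 := by
  have := u.map_const 1 one_ne_zero
  rwa [map_one] at this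

theorem val_pow (u : RVal K) {x : K} (hx : x ≠ 0) (n : ℕ) : u.val (x ^ n) = n * u.val x := by
  induction n with
  | zero => rw [pow_zero, val_one, Nat.cast_zero, zero_mul]
  | succ n ih =>
    rw [pow_succ, u.map_mul _ _ (pow_ne_zero n hx) hx, ih, Nat.cast_add, Nat.cast_one]
    ring

theorem val_inv (u : RVal K) {x : K} (hx : x ≠ 0) : u.val x⁻¹ = -u.val x := by
  have h := u.map_mul x x⁻¹ hx (inv_ne_zero hx)
  rw [mul_inv_cancel₀ hx, val_one] at h
  linarith

theorem val_zpow (u : RVal K) {x : K} (hx : x ≠ 0) (n : ℤ) : u.val (x ^ n) = n * u.val x := by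
  cases n with
  | ofNat n => rw [Int.ofNat_eq_natCast, zpow_natCast, val_pow u hx, Int.cast_natCast]
  | negSucc n =>
    rw [zpow_negSucc, val_inv u (pow_ne_zero _ hx), val_pow u hx, Int.negSucc_eq]
    push_cast
    ring

theorem ge_mul (u : RVal K) {c d : ℝ} {x y : K} (hx : u.Ge c x) (hy : u.Ge d y) :
    u.Ge (c + d) (x * y) := by
  rcases hx with hx | hx
  · left
    rw [hx, zero_mul]
  · rcases hy with hy | hy
    · left
      rw [hy, mul_zero]
    · by_cases hx0 : x = 0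
      · left
        rw [hx0, zero_mul]
      · by_cases hy0 : y = 0
        · left
          rw [hy0, mul_zero]
        · right
          rw [u.map_mul _ _ hx0 hy0]
          linarith

theorem ge_const (u : RVal K) (z : ℂ) : u.Ge 0 (algebraMap ℂ K z) := by
  by_cases hz : z = 0
  · left
    rw [hz, map_zero]
  · right
    rw [u.map_const z hz]

theorem ge_cast_div (u : RVal K) (j N : ℕ) : u.Ge 0 ((j : K) / (N : K)) := by
  have h := ge_const u ((j : ℂ) / (N : ℂ))
  rwa [map_div₀, map_natCast, map_natCast] at h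

theorem tw_zero (Z : Derivation ℂ K K) (x : K) (N : ℕ) (F : K) : tw Z x N F 0 = F := rfl

theorem tw_succ (Z : Derivation ℂ K K) (x : K) (N : ℕ) (F : K) (j : ℕ) : tw Z x N F (j + 1) =
    Z (tw Z x N F j) + ((j : K) / (N : K)) * (Z x / x) * tw Z x N F j := rfl

theorem tw_add (Z : Derivation ℂ K K) (x : K) (N : ℕ) (F G : K) (j : ℕ) :
    tw Z x N (F + G) j = tw Z x N F j + tw Z x N G j := by
  induction j with
  | zero => rfl
  | succ j ih =>
    rw [tw_succ, tw_succ, tw_succ, ih, map_add]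
    ring

theorem tw_mul (Z : Derivation ℂ K K) (x : K) (N : ℕ) (F G : K) (j : ℕ) :
    tw Z x N (F * G) j = ∑ i ∈ Finset.range (j + 1),
        (j.choose i : K) * tw Z x N F i * tw Z x N G (j - i) := by
  have key : ∀ j, tw Z x N (F * G) j = ∑ p ∈ Finset.HasAntidiagonal.antidiagonal j,
      (j.choose p.1 : K) * (tw Z x N F p.1 * tw Z x N G p.2) := by
    intro j
    induction j with
    | zero => simp [tw_zero]
    | succ j ih =>
      rw [tw_succ, ih, Finset.sum_antidiagonal_choose_succ_mul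
        (fun i k => tw Z x N F i * tw Z x N G k) j, map_sum, Finset.mul_sum,
        ← Finset.sum_add_distrib, ← Finset.sum_add_distrib]
      refine Finset.sum_congr rfl fun p hp => ?_
      have hp' : p.1 + p.2 = j := Finset.HasAntidiagonal.mem_antidiagonal.1 hp
      have hch : j.choose p.2 = j.choose p.1 := by
        rw [← hp', Nat.choose_symm_add]
      rw [hch, tw_succ, tw_succ, Derivation.leibniz, Derivation.leibniz, Derivation.map_natCast]
      have hj : (j : K) = (p.1 : K) + (p.2 : K) := by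
        rw [← hp', Nat.cast_add]
      rw [hj]
      simp only [smul_eq_mul]
      ring
  rw [key, Finset.Nat.sum_antidiagonal_eq_sum_range_succ
    (fun i k => (j.choose i : K) * (tw Z x N F i * tw Z x N G k)) j]
  exact Finset.sum_congr rfl fun i _ => (mul_assoc _ _ _).symm

theorem der_zpow (Z : Derivation ℂ K K) {p : K} (hp : p ≠ 0) (n : ℤ) :
    Z (p ^ n) = (n : K) * (Z p / p) * p ^ n := by
  rw [Derivation.leibniz_zpow, zpow_sub_one₀ hp, zsmul_eq_mul, smul_eq_mul]
  field_simp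

/-- the order of a twisted iterate -/
theorem tw_ge {u : RVal K} {p : K} (hp : p ≠ 0) (hup : u.val p = 1) {Z : Derivation ℂ K K} {x : K}
    (hx : x ≠ 0) {N : ℕ} (hN : 0 < N) {t : ℤ} (ht : u.val x = N * t)
    (hZ : ∀ F, u.Ge 0 F → u.Ge (-(t : ℝ)) (Z F)) {F : K} (hF : u.Ge 0 F) (j : ℕ) :
    u.Ge 0 (p ^ (j * t) * tw Z x N F j) := by
  have hc : CharZero K := charZero_of_injective_algebraMap (algebraMap ℂ K).injective
  have hNK : (N : K) ≠ 0 := Nat.cast_ne_zero.2 hN.ne'
  set e : K := x * p ^ (-(N * t : ℤ)) with he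
  have he0 : e ≠ 0 := mul_ne_zero hx (zpow_ne_zero _ hp)
  have hue : u.val e = 0 := by
    rw [he, u.map_mul _ _ hx (zpow_ne_zero _ hp), val_zpow u hp, hup, ht]
    push_cast
    ring
  have hZe : Z e * e⁻¹ = Z x / x - (N : K) * (t : K) * (Z p / p) := by
    rw [he, Derivation.leibniz, der_zpow Z hp]
    simp only [smul_eq_mul]
    have h1 : p ^ (-(N * t : ℤ)) ≠ 0 := zpow_ne_zero _ hp
    push_cast
    field_simp
    ring
  induction j with
  | zero => simpa [tw_zero] using hF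
  | succ j ih =>
    have h1 : p ^ (((j + 1 : ℕ) : ℤ) * t) * tw Z x N F (j + 1) =
        p ^ t * (Z (p ^ (j * t : ℤ) * tw Z x N F j) +
          ((j : K) / (N : K)) * (Z e * e⁻¹) * (p ^ (j * t : ℤ) * tw Z x N F j)) := by
      have h0 : p ^ (((j + 1 : ℕ) : ℤ) * t) = p ^ t * p ^ (j * t : ℤ) := by
        rw [← zpow_add₀ hp]
        congr 1
        push_cast
        ring
      rw [h0, hZe, tw_succ, Derivation.leibniz, der_zpow Z hp]
      simp only [smul_eq_mul]
      push_cast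
      field_simp
      ring
    rw [h1]
    have h2 : u.Ge (t : ℝ) (p ^ t) := by
      right
      rw [val_zpow u hp, hup, mul_one]
    have h3 : u.Ge (-(t : ℝ)) (Z (p ^ (j * t : ℤ) * tw Z x N F j)) := hZ _ ih
    have h4 : u.Ge (-(t : ℝ)) (Z e) := hZ e (Or.inr hue.ge)
    have h5 : u.Ge 0 e⁻¹ := Or.inr (by rw [val_inv u he0, hue, neg_zero])
    have h6 : u.Ge (-(t : ℝ)) (((j : K) / (N : K)) * (Z e * e⁻¹) *
        (p ^ (j * t : ℤ) * tw Z x N F j)) := by
      have := ge_mul u (ge_mul u (ge_cast_div u j N) (ge_mul u h4 h5)) ih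
      simpa using this
    have := ge_mul u h2 (u.ge_add h3 h6)
    simpa using this

theorem tw_val {u : RVal K} {p : K} (hp : p ≠ 0) (hup : u.val p = 1) {Z : Derivation ℂ K K} {x : K}
    (hx : x ≠ 0) {N : ℕ} (hN : 0 < N) {t : ℤ} (ht : u.val x = N * t)
    (hZ : ∀ F, u.Ge 0 F → u.Ge (-(t : ℝ)) (Z F)) {F : K} (hF : u.Ge 0 F) (j : ℕ)
    (h0 : tw Z x N F j ≠ 0) : 0 ≤ u.val (x ^ j * tw Z x N F j ^ N) := by
  rw [u.map_mul _ _ (pow_ne_zero _ hx) (pow_ne_zero _ h0), val_pow u hx, val_pow u h0, ht]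
  rcases tw_ge hp hup hx hN ht hZ hF j with h | h
  · exact absurd h (mul_ne_zero (zpow_ne_zero _ hp) h0)
  · rw [u.map_mul _ _ (zpow_ne_zero _ hp) h0, val_zpow u hp, hup] at h
    push_cast at h
    have hN' : (0 : ℝ) ≤ N := Nat.cast_nonneg _
    nlinarith

theorem eig_tw {ξ Z : Derivation ℂ K K} {x : K} {N : ℕ} {b ζ : ℝ} (hx : x ≠ 0)
    (hb : ξ x = (b : ℂ) • x) (hζ : ⁅ξ, Z⁆ = (ζ : ℂ) • Z) {F : K} {w : ℝ}
    (hF : ξ F = (w : ℂ) • F) (j : ℕ) :
    ξ (tw Z x N F j) = ((w + j * ζ : ℝ) : ℂ) • tw Z x N F j := by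
  have hZ : ∀ y, ξ (Z y) = Z (ξ y) + (ζ : ℂ) • Z y := fun y => by
    have h1 : ξ (Z y) - Z (ξ y) = (ζ : ℂ) • Z y := by
      rw [← Derivation.commutator_apply, hζ, Derivation.smul_apply]
    rw [← h1]
    ring
  have hl : ξ (Z x / x) = (ζ : ℂ) • (Z x / x) := by
    rw [div_eq_mul_inv, Derivation.leibniz, Derivation.leibniz_inv, hZ x, hb, Derivation.map_smul]
    simp only [smul_eq_mul, Algebra.smul_def]
    field_simp
    ring
  have hn : ∀ j : ℕ, ξ ((j : K) / (N : K)) = 0 := fun j => by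
    have h1 : ((j : K) / (N : K)) = algebraMap ℂ K ((j : ℂ) / (N : ℂ)) := by
      rw [map_div₀, map_natCast, map_natCast]
    rw [h1, Derivation.map_algebraMap]
  induction j with
  | zero => simpa [tw_zero] using hF
  | succ j ih =>
    rw [tw_succ, map_add, hZ, ih, Derivation.leibniz, Derivation.leibniz, hn j, hl, ih,
      Derivation.map_smul]
    simp only [smul_eq_mul, Algebra.smul_def]
    simp only [Complex.ofReal_add, Complex.ofReal_mul, Complex.ofReal_natCast, map_add, map_mul,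
      map_natCast, Nat.cast_add, Nat.cast_one, Complex.ofReal_one, map_one]
    ring

theorem eig_mul {ξ : Derivation ℂ K K} {x y : K} {c d : ℝ} (hx : ξ x = (c : ℂ) • x)
    (hy : ξ y = (d : ℂ) • y) : ξ (x * y) = ((c + d : ℝ) : ℂ) • (x * y) := by
  rw [Derivation.leibniz, hx, hy]
  push_cast
  simp only [smul_eq_mul, Algebra.smul_def, map_add]
  ring

theorem eig_pow {ξ : Derivation ℂ K K} {x : K} {c : ℝ} (hx : ξ x = (c : ℂ) • x) (n : ℕ) :
    ξ (x ^ n) = ((n * c : ℝ) : ℂ) • x ^ n := by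
  induction n with
  | zero => simp
  | succ n ih =>
    rw [pow_succ, eig_mul ih hx]
    congr 2
    push_cast
    ring

end Pool.Agent.Helper79.TWS

namespace Pool.Agent.Helper79.D4

open Module Pool.Agent.Helper37.SD Pool.Agent.Helper20.TS Pool.Agent.Helper88.D4
open Pool.Agent.Helper79.TWS

theorem s_TW : S_TW := by
  intro K _ _ R ξ hC hn Z x N b ζ hZ hb hζ
  have hA : ∀ F ∈ R, ∀ j, x ^ j * Helper88.D4.tw Z x N F j ^ N ∈ R := by
    intro F hF j
    by_cases h0 : Helper88.D4.tw Z x N F j = 0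
    · rw [h0, zero_pow hZ.pos.ne', mul_zero]
      exact R.zero_mem
    by_contra hR
    obtain ⟨u, hu, hux⟩ := Helper11.D4.s_EX1 K R hC.frac hC.fg hn _ hR
    obtain ⟨t, ht, hZt⟩ := hZ.reg u hu
    obtain ⟨p, -, hp, hup⟩ := hu.unif
    have hF' : u.Ge 0 F := by
      by_cases hF0 : F = 0
      · exact Or.inl hF0
      · exact Or.inr (hu.nonneg F hF hF0)
    exact absurd (tw_val hp hup hZ.ne hZ.pos ht hZt hF' j h0) (not_le.2 hux)
  refine ⟨hA, fun F w hF j => eig_tw hZ.ne hb hζ hF j, ?_, fun F G j => tw_add Z x N F G j,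
    fun F G j => tw_mul Z x N F G j⟩
  intro F hF w hw j hj
  by_contra h0
  have hN : (0 : ℝ) < N := Nat.cast_pos.2 hZ.pos
  have h1 := hA F hF j
  have h2 : x ^ j * Helper88.D4.tw Z x N F j ^ N ≠ 0 :=
    mul_ne_zero (pow_ne_zero _ hZ.ne) (pow_ne_zero _ h0)
  have h3 : ξ (x ^ j * Helper88.D4.tw Z x N F j ^ N) =
      ((j * b + N * (w + j * ζ) : ℝ) : ℂ) • (x ^ j * Helper88.D4.tw Z x N F j ^ N) :=
    TWS.eig_mul (TWS.eig_pow hb j) (TWS.eig_pow (eig_tw hZ.ne hb hζ hw j) N)
  have h4 := Helper94.D4.eig_nonneg hC h1 h2 h3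
  have h5 : (j : ℝ) * b + N * (w + j * ζ) = N * (w - j * (-(b / N + ζ))) := by
    field_simp
    ring
  rw [h5] at h4
  have h6 : N * (w - j * (-(b / N + ζ))) < 0 := mul_neg_of_pos_of_neg hN (by linarith)
  linarith

end Pool.Agent.Helper79.D4
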