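import Pool.Agent.Helper88.D4.Stmts

/-!
# D4: the semisimple part of a derivation of degree 0

A derivation `E` of degree `0` of a cone `R` is locally finite; `R` is graded by the pairs
(degree, generalized eigenvalue of `E`), which lie in a finitely generated subgroup of `ℝ × ℂ`.
Its coordinate functions give a torus.
-/

set_option autoImplicit false

namespace Pool.Agent.Helper79.D4

open Module Filter Topology Pool.Agent.Helper37.SD Pool.Agent.Helper20.TS Pool.Agent.Helper88.D4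

variable {K : Type} [Field K] [Algebra ℂ K] {R : Subalgebra ℂ K} {ξ : Derivation ℂ K K}

/-! ## Extension of derivations -/

/-- The value at a quotient. -/
private noncomputable def dq (L : K →ₗ[ℂ] K) (a b : K) : K := (b * L a - a * L b) / (b * b)

private theorem dq_eq (L : K →ₗ[ℂ] K) (hL : ∀ x ∈ R, ∀ y ∈ R, L (x * y) = x * L y + y * L x)
    {a b a' b' : K} (ha : a ∈ R) (hb : b ∈ R) (ha' : a' ∈ R) (hb' : b' ∈ R) (h0 : b ≠ 0)
    (h0' : b' ≠ 0) (e : a / b = a' / b') : dq L a b = dq L a' b' := by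
  have e1 : a * b' = a' * b := (div_eq_div_iff h0 h0').1 e
  have e2 : a * L b' + b' * L a = a' * L b + b * L a' := by
    rw [← hL a ha b' hb', ← hL a' ha' b hb, e1]
  unfold dq
  rw [div_eq_div_iff (mul_ne_zero h0 h0) (mul_ne_zero h0' h0')]
  linear_combination (b * b') * e2 - (b * L b' + b' * L b) * e1

/-- A derivation of a ring extends to the fraction field. -/
theorem exists_der_ext (hfrac : IsFrac R) (L : K →ₗ[ℂ] K)
    (hL : ∀ x ∈ R, ∀ y ∈ R, L (x * y) = x * L y + y * L x) :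
    ∃ D : Derivation ℂ K K, ∀ x ∈ R, D x = L x := by
  choose A hA B hB h0 hAB using hfrac
  have key : ∀ {a b : K}, a ∈ R → b ∈ R → b ≠ 0 → dq L (A (a / b)) (B (a / b)) =
      dq L a b := fun {a b} ha hb hb0 =>
    dq_eq L hL (hA _) (hB _) ha hb (h0 _) hb0 (hAB _).symm
  have hD : ∀ x y : K, dq L (A (x + y)) (B (x + y)) =
      dq L (A x) (B x) + dq L (A y) (B y) := by
    intro x y
    have e : x + y = (A x * B y + A y * B x) / (B x * B y) := by
      conv_lhs => rw [hAB x, hAB y]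
      field_simp [h0 x, h0 y]
    have m1 := R.mul_mem (hA x) (hB y)
    have m2 := R.mul_mem (hA y) (hB x)
    rw [e, key (R.add_mem m1 m2) (R.mul_mem (hB x) (hB y)) (mul_ne_zero (h0 x) (h0 y))]
    unfold dq
    rw [map_add, hL _ (hA x) _ (hB y), hL _ (hA y) _ (hB x),
      hL _ (hB x) _ (hB y)]
    have n1 := h0 x
    have n2 := h0 y
    field_simp
    ring
  have hS : ∀ (z : ℂ) (x : K), dq L (A (z • x)) (B (z • x)) = z • dq L (A x) (B x) := by
    intro z x
    have e : z • x = (z • A x) / B x := by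
      conv_lhs => rw [hAB x]
      rw [smul_div_assoc]
    rw [e, key (R.smul_mem (hA x) z) (hB x) (h0 x)]
    unfold dq
    rw [map_smul, mul_smul_comm, smul_mul_assoc, ← smul_sub, smul_div_assoc]
  have hM : ∀ x y : K, dq L (A (x * y)) (B (x * y)) =
      x • dq L (A y) (B y) + y • dq L (A x) (B x) := by
    intro x y
    have e : x * y = (A x * A y) / (B x * B y) := by
      conv_lhs => rw [hAB x, hAB y]
      rw [div_mul_div_comm]
    rw [e, key (R.mul_mem (hA x) (hA y)) (R.mul_mem (hB x) (hB y)) (mul_ne_zero (h0 x) (h0 y)),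
      smul_eq_mul, smul_eq_mul]
    have ex := hAB x
    have ey := hAB y
    have n1 := h0 x
    have n2 := h0 y
    unfold dq
    rw [hL _ (hA x) _ (hA y), hL _ (hB x) _ (hB y)]
    generalize A x = a at *
    generalize B x = b at *
    generalize A y = a' at *
    generalize B y = b' at *
    rw [ex, ey]
    field_simp
    ring
  let D : K →ₗ[ℂ] K :=
    { toFun := fun x => dq L (A x) (B x)
      map_add' := hD
      map_smul' := hS }
  refine ⟨Derivation.mk' D hM, fun x hx => ?_⟩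
  show dq L (A x) (B x) = _
  have e : x = x / 1 := (div_one x).symm
  have h1 : L (1 : K) = 0 := by
    have h2 := hL _ R.one_mem _ R.one_mem
    rw [mul_one, one_mul] at h2
    have h3 : L (1 : K) + 0 = L 1 + L 1 := by rw [add_zero]; exact h2
    exact (add_left_cancel h3).symm
  rw [e, key hx R.one_mem one_ne_zero, div_one]
  unfold dq
  rw [h1, mul_zero, sub_zero, one_mul, one_mul, div_one]

/-- A linear map acting by given scalars on independent subspaces. -/
theorem exists_lin {G V : Type} [DecidableEq G] [AddCommGroup V] [Module ℂ V]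
    (S : G → Submodule ℂ V) (hind : iSupIndep S) (χ : G → ℂ) :
    ∃ L : V →ₗ[ℂ] V, ∀ g, ∀ x ∈ S g, L x = χ g • x := by
  classical
  let Φ : (Π₀ g, S g) →ₗ[ℂ] V := DFinsupp.lsum ℕ fun g => (S g).subtype
  have hΦ : Function.Injective Φ := hind.dfinsupp_lsum_injective
  obtain ⟨Ψ, hΨ⟩ := Φ.exists_leftInverse_of_injective (LinearMap.ker_eq_bot.mpr hΦ)
  let L' : (Π₀ g, S g) →ₗ[ℂ] V := DFinsupp.lsum ℕ fun g => χ g • (S g).subtype
  refine ⟨L' ∘ₗ Ψ, fun g x hx => ?_⟩
  have h1 : Φ (DFinsupp.single g ⟨x, hx⟩) = x := by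
    simp [Φ]
  have h2 : Ψ x = DFinsupp.single g ⟨x, hx⟩ := by
    conv_lhs => rw [← h1]
    exact LinearMap.congr_fun hΨ _
  rw [LinearMap.comp_apply, h2]
  simp [L']

/-- The derivation given by a character of the grading group. -/
theorem exists_grading_der {G : Type} [AddCommGroup G] (hfrac : IsFrac R)
    (S : G → Submodule ℂ K) (hspan : ∀ x ∈ R, x ∈ ⨆ g, S g)
    (hind : iSupIndep S) (hmul : ∀ g h x y, x ∈ S g → y ∈ S h → x * y ∈ S (g + h))
    (χ : G → ℂ) (hχ : ∀ g h, χ (g + h) = χ g + χ h) :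
    ∃ D : Derivation ℂ K K, ∀ g, ∀ x ∈ S g, x ∈ R → D x = χ g • x := by
  classical
  obtain ⟨L, hL⟩ := exists_lin S hind χ
  obtain ⟨D, hD⟩ := exists_der_ext hfrac L (by
    intro x hx y hy
    have hx' := hspan x hx
    have hy' := hspan y hy
    clear hx hy
    induction hx' using Submodule.iSup_induction' with
    | mem g x hx =>
      induction hy' using Submodule.iSup_induction' with
      | mem h y hy =>
        rw [hL g x hx, hL h y hy, hL (g + h) _ (hmul g h x y hx hy), hχ, add_smul,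
          mul_smul_comm, mul_smul_comm, mul_comm y x, add_comm]
      | zero => rw [mul_zero, map_zero, mul_zero, zero_mul, add_zero]
      | add y y' _ _ hy hy' =>
        rw [mul_add, map_add, map_add, hy, hy']
        ring
    | zero => rw [zero_mul, map_zero, mul_zero, zero_mul, add_zero]
    | add x x' _ _ hx hx' =>
      rw [add_mul, map_add, map_add, hx, hx']
      ring)
  exact ⟨D, fun g x hx hxR => by rw [hD x hxR, hL g x hx]⟩

/-! ## The grading by degree and generalized eigenvalue -/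

/-- The elements of `R` of degree `w.1` which are generalized eigenvectors of `E` for `w.2`. -/
noncomputable def Sp (R : Subalgebra ℂ K) (ξ E : Derivation ℂ K K) (w : ℝ × ℂ) :
    Submodule ℂ K :=
  eigR R ξ w.1 ⊓ Module.End.maxGenEigenspace (E : K →ₗ[ℂ] K) w.2

/-- `E - μ` -/
noncomputable def tw (E : Derivation ℂ K K) (μ : ℂ) : Module.End ℂ K :=
  (E : K →ₗ[ℂ] K) - μ • 1

theorem tw_apply (E : Derivation ℂ K K) (μ : ℂ) (x : K) : tw E μ x = E x - μ • x := rfl

theorem mem_sp {E : Derivation ℂ K K} {w : ℝ × ℂ} {x : K} : x ∈ Sp R ξ E w ↔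
    (x ∈ R ∧ ξ x = (w.1 : ℂ) • x) ∧ ∃ n : ℕ, (tw E w.2 ^ n) x = 0 := by
  unfold Sp
  rw [Submodule.mem_inf, Module.End.mem_maxGenEigenspace]
  rfl

theorem tw_mul (E : Derivation ℂ K K) (μ ν : ℂ) (x y : K) :
    tw E (μ + ν) (x * y) = tw E μ x * y + x * tw E ν y := by
  rw [tw_apply, tw_apply, tw_apply, Derivation.leibniz, smul_eq_mul, smul_eq_mul, add_smul,
    sub_mul, mul_sub, smul_mul_assoc, mul_smul_comm]
  ring

theorem tw_pow_mul (E : Derivation ℂ K K) (μ ν : ℂ) (k : ℕ) : ∀ (n m : ℕ), n + m ≤ k + 1 →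
    ∀ x y : K, (tw E μ ^ n) x = 0 → (tw E ν ^ m) y = 0 →
      (tw E (μ + ν) ^ k) (x * y) = 0 := by
  induction k with
  | zero =>
    intro n m hnm x y hx hy
    rcases Nat.eq_zero_or_pos n with rfl | hn
    · have h1 : x = 0 := hx
      rw [h1, zero_mul, map_zero]
    · have hm : m = 0 := by omega
      subst hm
      have h1 : y = 0 := hy
      rw [h1, mul_zero, map_zero]
  | succ k ih =>
    intro n m hnm x y hx hy
    rcases Nat.eq_zero_or_pos n with rfl | hn
    · have h1 : x = 0 := hx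
      rw [h1, zero_mul, map_zero]
    · rcases Nat.eq_zero_or_pos m with rfl | hm
      · have h1 : y = 0 := hy
        rw [h1, mul_zero, map_zero]
      · obtain ⟨n, rfl⟩ : ∃ n', n = n' + 1 := ⟨n - 1, by omega⟩
        obtain ⟨m, rfl⟩ : ∃ m', m = m' + 1 := ⟨m - 1, by omega⟩
        rw [pow_succ, Module.End.mul_apply, tw_mul, map_add,
          ih n (m + 1) (by omega) _ _ (by rw [pow_succ] at hx; exact hx) hy,
          ih (n + 1) m (by omega) _ _ hx (by rw [pow_succ] at hy; exact hy), add_zero]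

theorem sp_mul {E : Derivation ℂ K K} {w w' : ℝ × ℂ} {x y : K} (hx : x ∈ Sp R ξ E w)
    (hy : y ∈ Sp R ξ E w') : x * y ∈ Sp R ξ E (w + w') := by
  rw [mem_sp] at hx hy ⊢
  obtain ⟨⟨hxR, hx1⟩, n, hn⟩ := hx
  obtain ⟨⟨hyR, hy1⟩, m, hm⟩ := hy
  refine ⟨⟨R.mul_mem hxR hyR, ?_⟩, n + m, ?_⟩
  · rw [ξ.leibniz, hx1, hy1, smul_eq_mul, smul_eq_mul, Prod.fst_add, Complex.ofReal_add, add_smul,
      mul_smul_comm, mul_smul_comm, mul_comm y x, add_comm]
  · exact tw_pow_mul E w.2 w'.2 (n + m) n m (by omega) x y hn hm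

theorem sp_const (E : Derivation ℂ K K) (z : ℂ) : algebraMap ℂ K z ∈ Sp R ξ E 0 := by
  rw [mem_sp]
  refine ⟨⟨R.algebraMap_mem z, ?_⟩, 1, ?_⟩
  · rw [Derivation.map_algebraMap, Prod.fst_zero, Complex.ofReal_zero, zero_smul]
  · rw [pow_one, tw_apply, Derivation.map_algebraMap, Prod.snd_zero, zero_smul, sub_zero]

theorem sp_indep {E : Derivation ℂ K K} (hE : ⁅ξ, E⁆ = 0) : iSupIndep (Sp R ξ E) := by
  have hc : Commute (ξ : K →ₗ[ℂ] K) (E : K →ₗ[ℂ] K) := by
    refine LinearMap.ext fun x => ?_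
    have h1 : ⁅ξ, E⁆ x = 0 := by rw [hE]; rfl
    rw [Derivation.commutator_apply, sub_eq_zero] at h1
    exact h1
  let f : Fin 2 → Module.End ℂ K := ![(ξ : K →ₗ[ℂ] K), (E : K →ₗ[ℂ] K)]
  have hf : ∀ i j, Commute (f i) (f j) := by
    intro i j
    fin_cases i <;> fin_cases j
    · exact Commute.refl _
    · exact hc
    · exact hc.symm
    · exact Commute.refl _
  have h1 := Module.End.independent_iInf_maxGenEigenspace_of_forall_mapsTo f
    (fun i j φ => Module.End.mapsTo_maxGenEigenspace_of_comm (hf j i) φ)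
  let e : ℝ × ℂ → (Fin 2 → ℂ) := fun w => ![(w.1 : ℂ), w.2]
  have he : Function.Injective e := by
    intro w w' h
    have h2 := congrFun h 0
    have h3 := congrFun h 1
    have h2' : (w.1 : ℂ) = (w'.1 : ℂ) := h2
    have h3' : w.2 = w'.2 := h3
    exact Prod.ext (Complex.ofReal_injective h2') h3'
  refine (h1.comp he).mono fun w => ?_
  intro x hx
  rw [mem_sp] at hx
  obtain ⟨⟨_, hx1⟩, n, hn⟩ := hx
  show x ∈ ⨅ i, (f i).maxGenEigenspace (e w i)
  rw [Submodule.mem_iInf]
  intro i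
  rw [Module.End.mem_maxGenEigenspace]
  fin_cases i
  · refine ⟨1, ?_⟩
    rw [pow_one]
    show ξ x - (w.1 : ℂ) • x = 0
    rw [hx1, sub_self]
  · exact ⟨n, hn⟩

theorem sp_map (E : Derivation ℂ K K) {c : ℝ}
    (hmap : Set.MapsTo (E : K →ₗ[ℂ] K) (eigR R ξ c) (eigR R ξ c)) (μ : ℂ) :
    Submodule.map (eigR R ξ c).subtype (Module.End.maxGenEigenspace
      ((E : K →ₗ[ℂ] K).restrict hmap : Module.End ℂ (eigR R ξ c)) μ) ≤ Sp R ξ E (c, μ) := by
  rintro _ ⟨z, hz, rfl⟩
  rw [SetLike.mem_coe, Module.End.mem_maxGenEigenspace] at hz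
  obtain ⟨n, hn⟩ := hz
  rw [mem_sp]
  refine ⟨z.2, n, ?_⟩
  have key : ∀ (n : ℕ) (z : eigR R ξ c), (tw E μ ^ n) (z : K) =
      ((((E : K →ₗ[ℂ] K).restrict hmap - μ • (1 : Module.End ℂ (eigR R ξ c))) ^ n) z :
        eigR R ξ c) := by
    intro n
    induction n with
    | zero => intro z; rfl
    | succ n ih =>
      intro z
      rw [pow_succ, pow_succ, Module.End.mul_apply, Module.End.mul_apply, ← ih]
      rfl
  show (tw E μ ^ n) (z : K) = 0
  rw [key, hn]
  rfl

theorem sp_span (h : IsCone R ξ) {E : Derivation ℂ K K} (hp : Pres R E) (hE : ⁅ξ, E⁆ = 0) :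
    ∀ x ∈ R, x ∈ ⨆ w, Sp R ξ E w := by
  intro x hx
  have hx' := h.span x hx
  refine (Submodule.span_le (p := ⨆ w, Sp R ξ E w)).mpr ?_ hx'
  rintro y ⟨hyR, c, _, hy⟩
  have hfin := h.finite_eigR c
  have hmap : Set.MapsTo (E : K →ₗ[ℂ] K) (eigR R ξ c) (eigR R ξ c) := by
    rintro z ⟨hzR, hz⟩
    refine ⟨hp z hzR, ?_⟩
    show ξ (E z) = _
    have h1 : ⁅ξ, E⁆ z = 0 := by rw [hE]; rfl
    rw [Derivation.commutator_apply, sub_eq_zero] at h1
    rw [h1, hz, Derivation.map_smul]
    rfl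
  have htop := Module.End.iSup_maxGenEigenspace_eq_top
    ((E : K →ₗ[ℂ] K).restrict hmap : Module.End ℂ (eigR R ξ c))
  have hy0 : (⟨y, hyR, hy⟩ : eigR R ξ c) ∈ ⨆ μ, Module.End.maxGenEigenspace
      ((E : K →ₗ[ℂ] K).restrict hmap : Module.End ℂ (eigR R ξ c)) μ := by
    rw [htop]
    exact Submodule.mem_top
  have hy1 := Submodule.mem_map_of_mem (f := (eigR R ξ c).subtype) hy0
  rw [Submodule.map_iSup] at hy1
  have hle : (⨆ μ, Submodule.map (eigR R ξ c).subtype (Module.End.maxGenEigenspace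
      ((E : K →ₗ[ℂ] K).restrict hmap : Module.End ℂ (eigR R ξ c)) μ)) ≤
      ⨆ w, Sp R ξ E w := by
    refine iSup_le fun μ => ?_
    refine le_trans (sp_map E hmap μ) (le_iSup _ (c, μ))
  exact hle hy1

/-- Finitely many weights generate. -/
theorem exists_weights (h : IsCone R ξ) {E : Derivation ℂ K K} (hp : Pres R E)
    (hE : ⁅ξ, E⁆ = 0) : ∃ W : Finset (ℝ × ℂ), (∀ w ∈ W, ∃ y ∈ Sp R ξ E w, y ≠ 0) ∧
      ∀ x ∈ R, x ∈ ⨆ γ : Submodule.span ℤ (W : Set (ℝ × ℂ)), Sp R ξ E (γ : ℝ × ℂ) := by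
  classical
  obtain ⟨T, hT⟩ := h.fg
  have hTR : ∀ t ∈ T, t ∈ R := by
    intro t ht
    rw [← hT]
    exact Algebra.subset_adjoin ht
  have h1 : ∀ t : K, ∃ f : ℝ × ℂ →₀ K, t ∈ T →
      (∀ w, f w ∈ Sp R ξ E w) ∧ (f.sum fun _ y => y) = t := by
    intro t
    by_cases ht : t ∈ T
    · obtain ⟨f, hf1, hf2⟩ := (Submodule.mem_iSup_iff_exists_finsupp _ _).mp
        (sp_span h hp hE t (hTR t ht))
      exact ⟨f, fun _ => ⟨hf1, hf2⟩⟩
    · exact ⟨0, fun h => absurd h ht⟩
  choose f hf using h1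
  refine ⟨T.biUnion fun t => (f t).support, ?_, ?_⟩
  · intro w hw
    obtain ⟨t, ht, hw⟩ := Finset.mem_biUnion.mp hw
    exact ⟨f t w, (hf t ht).1 w, Finsupp.mem_support_iff.mp hw⟩
  · intro x hx
    generalize hW : (T.biUnion fun t => (f t).support) = W
    rw [← hT] at hx
    induction hx using Algebra.adjoin_induction with
    | mem t ht =>
      rw [← (hf t ht).2]
      refine Submodule.sum_mem _ fun w hw => ?_
      have hwW : w ∈ (W : Set (ℝ × ℂ)) := by
        rw [← hW]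
        exact Finset.mem_coe.mpr (Finset.mem_biUnion.mpr ⟨t, ht, hw⟩)
      exact Submodule.mem_iSup_of_mem
        (⟨w, Submodule.subset_span hwW⟩ : Submodule.span ℤ (W : Set (ℝ × ℂ))) ((hf t ht).1 w)
    | algebraMap z =>
      exact Submodule.mem_iSup_of_mem (0 : Submodule.span ℤ (W : Set (ℝ × ℂ))) (sp_const E z)
    | add x y _ _ hx hy => exact Submodule.add_mem _ hx hy
    | mul x y hx0 hy0 hx hy =>
      clear hx0 hy0
      induction hx using Submodule.iSup_induction' with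
      | mem g x hx =>
        induction hy using Submodule.iSup_induction' with
        | mem g' y hy => exact Submodule.mem_iSup_of_mem (g + g') (sp_mul hx hy)
        | zero => rw [mul_zero]; exact Submodule.zero_mem _
        | add y y' _ _ hy hy' => rw [mul_add]; exact Submodule.add_mem _ hy hy'
      | zero => rw [zero_mul]; exact Submodule.zero_mem _
      | add x x' _ _ hx hx' => rw [add_mul]; exact Submodule.add_mem _ hx hx'

theorem tw_stable {E : Derivation ℂ K K} (hp : Pres R E) (hE : ⁅ξ, E⁆ = 0) {c : ℝ} (μ : ℂ)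
    {x : K} (hx : x ∈ eigR R ξ c) : tw E μ x ∈ eigR R ξ c := by
  refine Submodule.sub_mem _ ⟨hp x hx.1, ?_⟩ (Submodule.smul_mem _ μ hx)
  have h1 : ⁅ξ, E⁆ x = 0 := by rw [hE]; rfl
  rw [Derivation.commutator_apply, sub_eq_zero] at h1
  show ξ (E x) = (c : ℂ) • E x
  rw [h1, hx.2, Derivation.map_smul]

/-- On the part of degree `c`, `E - μ ξ` is `E - μ c`. -/
theorem iter_eq {E : Derivation ℂ K K} (hp : Pres R E) (hE : ⁅ξ, E⁆ = 0) {c : ℝ} (μ : ℂ)
    (n : ℕ) : ∀ {x : K}, x ∈ eigR R ξ c →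
      ((E - μ • ξ : Derivation ℂ K K) : K → K)^[n] x = (tw E (μ * c) ^ n) x := by
  induction n with
  | zero => intro x _; rfl
  | succ n ih =>
    intro x hx
    have h1 : (E - μ • ξ : Derivation ℂ K K) x = tw E (μ * c) x := by
      rw [Derivation.sub_apply, Derivation.smul_apply, hx.2, tw_apply, smul_smul]
    rw [Function.iterate_succ_apply, h1, ih (tw_stable hp hE _ hx), pow_succ]
    rfl

theorem s_R1 : S_R1 := by
  intro K _ _ R ξ h E hp hE
  classical
  obtain ⟨W, hW, hspan⟩ := exists_weights h hp hE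
  have hfin : Module.Finite ℤ (Submodule.span ℤ (W : Set (ℝ × ℂ))) :=
    Module.Finite.span_finset ℤ W
  have hfree : Module.Free ℤ (Submodule.span ℤ (W : Set (ℝ × ℂ))) := inferInstance
  obtain ⟨r, ⟨b⟩⟩ : ∃ r : ℕ, Nonempty (Basis (Fin r) ℤ (Submodule.span ℤ (W : Set (ℝ × ℂ)))) :=
    ⟨_, ⟨Module.finBasis ℤ _⟩⟩
  have hind : iSupIndep fun γ : Submodule.span ℤ (W : Set (ℝ × ℂ)) => Sp R ξ E (γ : ℝ × ℂ) :=
    (sp_indep hE).comp Subtype.val_injective
  have hSR : ∀ (w : ℝ × ℂ) (x : K), x ∈ Sp R ξ E w → x ∈ R := fun w x hx => hx.1.1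
  have hder : ∀ i : Fin r, ∃ D : Derivation ℂ K K,
      ∀ γ : Submodule.span ℤ (W : Set (ℝ × ℂ)), ∀ x ∈ Sp R ξ E (γ : ℝ × ℂ), x ∈ R →
        D x = ((b.repr γ i : ℤ) : ℂ) • x := fun i =>
    exists_grading_der h.frac (fun γ : Submodule.span ℤ (W : Set (ℝ × ℂ)) =>
      Sp R ξ E (γ : ℝ × ℂ)) hspan hind (fun g h x y hx hy => sp_mul hx hy)
      (fun γ => ((b.repr γ i : ℤ) : ℂ)) (fun g h => by simp)
  choose H hH using hder
  have hH' : ∀ (i : Fin r) (γ : Submodule.span ℤ (W : Set (ℝ × ℂ))) (x : K),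
      x ∈ Sp R ξ E (γ : ℝ × ℂ) → H i x = ((b.repr γ i : ℤ) : ℂ) • x :=
    fun i γ x hx => hH i γ x hx (hSR _ x hx)
  have hvan : ∀ D : Derivation ℂ K K, (∀ γ : Submodule.span ℤ (W : Set (ℝ × ℂ)),
      ∀ x ∈ Sp R ξ E (γ : ℝ × ℂ), D x = 0) → D = 0 := by
    intro D hD
    refine der_eq_zero h.frac fun x hx => ?_
    have hx' := hspan x hx
    clear hx
    induction hx' using Submodule.iSup_induction' with
    | mem g x hx => exact hD g x hx
    | zero => exact map_zero D
    | add x y _ _ hx hy => rw [map_add, hx, hy, add_zero]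
  have hdec : ∀ γ : Submodule.span ℤ (W : Set (ℝ × ℂ)), (γ : ℝ × ℂ) =
      ∑ i, (b.repr γ i : ℤ) • (b i : ℝ × ℂ) := by
    intro γ
    conv_lhs => rw [← b.sum_repr γ]
    rw [AddSubmonoidClass.coe_finsetSum]
    rfl
  by_cases hr : 2 ≤ r
  · left
    refine ⟨r, H, fun i => (b i : ℝ × ℂ).1, hr, ⟨?_, ?_, ?_, ?_⟩⟩
    · intro i j
      refine hvan _ fun γ x hx => ?_
      rw [Derivation.commutator_apply, hH' j γ x hx, hH' i γ x hx, Derivation.map_smul,
        Derivation.map_smul, hH' j γ x hx, hH' i γ x hx, smul_comm, sub_self]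
    · intro x hx
      have hx' := hspan x hx
      clear hx
      induction hx' using Submodule.iSup_induction' with
      | mem g x hx =>
        exact Submodule.subset_span ⟨hSR _ x hx, fun i => b.repr g i, fun i => hH' i g x hx⟩
      | zero => exact Submodule.zero_mem _
      | add x y _ _ hx hy => exact Submodule.add_mem _ hx hy
    · rw [← sub_eq_zero]
      refine hvan _ fun γ x hx => ?_
      have h1 : (∑ i, (((b i : ℝ × ℂ).1 : ℝ) : ℂ) • H i : Derivation ℂ K K) x =
          ∑ i, (((b i : ℝ × ℂ).1 : ℝ) : ℂ) • ((b.repr γ i : ℤ) : ℂ) • x := by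
        rw [der_sum_apply]
        refine Finset.sum_congr rfl fun i _ => ?_
        rw [Derivation.smul_apply, hH' i γ x hx]
      rw [Derivation.sub_apply, h1, hx.1.2, sub_eq_zero]
      simp only [smul_smul]
      rw [← Finset.sum_smul]
      congr 1
      have h2 := congrArg Prod.fst (hdec γ)
      rw [Prod.fst_sum] at h2
      rw [h2]
      push_cast
      refine Finset.sum_congr rfl fun i _ => ?_
      rw [Prod.smul_fst, zsmul_eq_mul]
      push_cast
      ring
    · rw [Fintype.linearIndependent_iff]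
      intro a ha j
      have h1 : ∀ γ : ℝ × ℂ, ∀ hγ : γ ∈ Submodule.span ℤ (W : Set (ℝ × ℂ)),
          ∑ i, a i * ((b.repr ⟨γ, hγ⟩ i : ℤ) : ℂ) = 0 := by
        intro γ hγ
        induction hγ using Submodule.span_induction with
        | mem w hw =>
          obtain ⟨y, hy, hy0⟩ := hW w hw
          have h2 : (∑ i, a i • H i : Derivation ℂ K K) y = 0 := by rw [ha]; rfl
          rw [der_sum_apply] at h2
          have h3 : ∀ i, (a i • H i : Derivation ℂ K K) y =
              (a i * ((b.repr ⟨w, Submodule.subset_span hw⟩ i : ℤ) : ℂ)) • y := by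
            intro i
            rw [Derivation.smul_apply, hH' i ⟨w, Submodule.subset_span hw⟩ y hy, smul_smul]
          simp only [h3] at h2
          rw [← Finset.sum_smul] at h2
          exact (smul_eq_zero.mp h2).resolve_right hy0
        | zero =>
          have h2 : (⟨0, Submodule.zero_mem _⟩ : Submodule.span ℤ (W : Set (ℝ × ℂ))) = 0 := rfl
          simp [h2]
        | add x y hx hy ihx ihy =>
          have h2 : (⟨x + y, Submodule.add_mem _ hx hy⟩ : Submodule.span ℤ (W : Set (ℝ × ℂ))) =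
            ⟨x, hx⟩ + ⟨y, hy⟩ := rfl
          rw [h2]
          simp only [map_add, Finsupp.add_apply, Int.cast_add, mul_add]
          rw [Finset.sum_add_distrib, ihx, ihy, add_zero]
        | smul z x hx ihx =>
          have h2 : (⟨z • x, Submodule.smul_mem _ z hx⟩ : Submodule.span ℤ (W : Set (ℝ × ℂ))) =
            z • ⟨x, hx⟩ := rfl
          rw [h2]
          simp only [map_smul, Finsupp.smul_apply, smul_eq_mul, Int.cast_mul]
          have h3 : ∑ i, a i * ((z : ℂ) * ((b.repr ⟨x, hx⟩ i : ℤ) : ℂ)) =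
              (z : ℂ) * ∑ i, a i * ((b.repr ⟨x, hx⟩ i : ℤ) : ℂ) := by
            rw [Finset.mul_sum]
            exact Finset.sum_congr rfl fun i _ => by ring
          rw [h3, ihx, mul_zero]
      have h2 := h1 (b j : ℝ × ℂ) (b j).2
      have h3 : (⟨(b j : ℝ × ℂ), (b j).2⟩ : Submodule.span ℤ (W : Set (ℝ × ℂ))) = b j := rfl
      rw [h3, b.repr_self, Finset.sum_eq_single j] at h2
      · simpa using h2
      · intro i _ hij
        rw [Finsupp.single_eq_of_ne hij]
        simp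
      · intro hj
        exact absurd (Finset.mem_univ j) hj
  · right
    obtain ⟨g, hg⟩ : ∃ g : ℝ × ℂ, ∀ γ : Submodule.span ℤ (W : Set (ℝ × ℂ)),
        ∃ n : ℤ, (γ : ℝ × ℂ) = n • g := by
      have hr' : r = 0 ∨ r = 1 := by omega
      rcases hr' with rfl | rfl
      · refine ⟨0, fun γ => ⟨0, ?_⟩⟩
        rw [hdec γ]
        simp
      · refine ⟨(b 0 : ℝ × ℂ), fun γ => ⟨b.repr γ 0, ?_⟩⟩
        rw [hdec γ]
        simp
    obtain ⟨μ, hμ⟩ : ∃ μ : ℂ, ∀ γ : Submodule.span ℤ (W : Set (ℝ × ℂ)),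
        ∀ x ∈ Sp R ξ E (γ : ℝ × ℂ), ∃ n : ℕ,
          ((E - μ • ξ : Derivation ℂ K K) : K → K)^[n] x = 0 := by
      by_cases hg0 : g.1 = 0
      · refine ⟨0, fun γ x hx => ⟨1, ?_⟩⟩
        obtain ⟨n, hn⟩ := hg γ
        have h1 : (γ : ℝ × ℂ).1 = 0 := by
          rw [hn, Prod.smul_fst, hg0, smul_zero]
        have h2 := hx.1.2
        rw [h1, Complex.ofReal_zero, zero_smul] at h2
        obtain ⟨z, hz⟩ := h.const x hx.1.1 h2
        rw [Function.iterate_one, zero_smul, sub_zero, hz, Derivation.map_algebraMap]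
      · refine ⟨g.2 / (g.1 : ℂ), fun γ x hx => ?_⟩
        have hx0 := hx
        rw [mem_sp] at hx
        obtain ⟨hx1, n, hn⟩ := hx
        refine ⟨n, ?_⟩
        rw [iter_eq hp hE _ n (c := (γ : ℝ × ℂ).1) hx1]
        obtain ⟨m, hm⟩ := hg γ
        have h1 : g.2 / (g.1 : ℂ) * ((γ : ℝ × ℂ).1 : ℂ) = (γ : ℝ × ℂ).2 := by
          have h2 : (g.1 : ℂ) ≠ 0 := Complex.ofReal_ne_zero.mpr hg0
          rw [hm, Prod.smul_fst, Prod.smul_snd, zsmul_eq_mul, zsmul_eq_mul]
          push_cast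
          field_simp
        rw [h1]
        exact hn
    refine ⟨μ, fun x hx => ?_⟩
    have hx' := hspan x hx
    clear hx
    induction hx' using Submodule.iSup_induction' with
    | mem g x hx => exact hμ g x hx
    | zero => exact ⟨0, rfl⟩
    | add x y _ _ hx hy =>
      obtain ⟨n, hn⟩ := hx
      obtain ⟨m, hm⟩ := hy
      refine ⟨n + m, ?_⟩
      rw [iter_add, iter_zero_of_le (Nat.le_add_right n m) hn,
        iter_zero_of_le (Nat.le_add_left m n) hm, add_zero]

end Pool.Agent.Helper79.D4
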