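import Pool.Agent.Helper79.D4.TW
import Pool.Agent.Helper13.D4.Wr

/-!
# Project D4 (MP_e1889a_ag): the degree of a Wronskian of a fractional derivation
-/

set_option autoImplicit false

namespace Pool.Agent.Helper79.TWS

open Module Pool.Agent.Helper37.SD Pool.Agent.Helper20.TS Pool.Agent.Helper88.D4

variable {K : Type} [Field K] [Algebra ℂ K]

/-- a twisted iterate is an iterate plus lower iterates with fixed coefficients -/
theorem tw_coeff (Z : Derivation ℂ K K) (x : K) (N : ℕ) (i : ℕ) : ∃ c : ℕ → K, ∀ φ,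
    tw Z x N φ i = (Z : K → K)^[i] φ + ∑ l ∈ Finset.range i, c l * (Z : K → K)^[l] φ := by
  induction i with
  | zero => exact ⟨fun _ => 0, fun φ => by simp [tw_zero]⟩
  | succ i ih =>
    obtain ⟨c, hc⟩ := ih
    set e : ℕ → K := fun l => if l < i then c l else 1 with he
    have hsum : ∀ g : ℕ → K, g i + ∑ l ∈ Finset.range i, c l * g l =
        ∑ l ∈ Finset.range (i + 1), e l * g l := by
      intro g
      rw [Finset.sum_range_succ, add_comm]
      congr 1
      · exact Finset.sum_congr rfl fun l hl => by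
          rw [he]; simp only; rw [if_pos (Finset.mem_range.mp hl)]
      · rw [he]; simp
    refine ⟨fun l => Z (e l) + (if l = 0 then 0 else e (l - 1)) +
      ((i : K) / (N : K)) * (Z x / x) * e l, ?_⟩
    intro φ
    rw [tw_succ, hc φ, hsum (fun l => (Z : K → K)^[l] φ), map_sum]
    have h2 : ∀ l, Z (e l * (Z : K → K)^[l] φ) =
        e l * (Z : K → K)^[l + 1] φ + Z (e l) * (Z : K → K)^[l] φ := by
      intro l
      rw [Derivation.leibniz, smul_eq_mul, smul_eq_mul, Function.iterate_succ_apply', mul_comm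
        ((Z : K → K)^[l] φ)]
    simp only [h2, Finset.sum_add_distrib]
    have h3 : ∑ l ∈ Finset.range (i + 1), e l * (Z : K → K)^[l + 1] φ =
        (Z : K → K)^[i + 1] φ +
          ∑ l ∈ Finset.range (i + 1), (if l = 0 then 0 else e (l - 1)) * (Z : K → K)^[l] φ := by
      rw [Finset.sum_range_succ, Finset.sum_range_succ' (fun l =>
        (if l = 0 then 0 else e (l - 1)) * (Z : K → K)^[l] φ)]
      have : e i = 1 := by rw [he]; simp
      rw [this]
      simp
      ring
    rw [h3, Finset.mul_sum]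
    simp only [add_mul, Finset.sum_add_distrib, mul_assoc]
    ring

theorem det_tw (Z : Derivation ℂ K K) (x : K) (N : ℕ) {n : ℕ} (f : Fin n → K) :
    (Matrix.of fun (i j : Fin n) => tw Z x N (f j) i).det = wr Z f := by
  have key := tw_coeff Z x N
  choose c hc using key
  unfold wr
  set L : Matrix (Fin n) (Fin n) K := Matrix.of fun i l =>
    if l = i then 1 else if (l : ℕ) < i then c i l else 0 with hL
  have hprod : (Matrix.of fun (i j : Fin n) => tw Z x N (f j) i) =
      L * Matrix.of fun (i j : Fin n) => (Z : K → K)^[i] (f j) := by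
    ext i j
    rw [Matrix.mul_apply]
    simp only [Matrix.of_apply, hL]
    rw [hc i (f j)]
    have hi : (i : ℕ) < n := i.2
    have h1 : ∑ l ∈ Finset.range (i : ℕ), c i l * (Z : K → K)^[l] (f j) =
        ∑ l : Fin n, if (l : ℕ) < i then c i l * (Z : K → K)^[(l : ℕ)] (f j) else 0 := by
      rw [Fin.sum_univ_eq_sum_range (fun l => if l < (i : ℕ) then
        c i l * (Z : K → K)^[l] (f j) else 0) n, ← Finset.sum_filter]
      congr 1
      ext l
      simp only [Finset.mem_range, Finset.mem_filter]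
      omega
    rw [h1]
    have h2 : (Z : K → K)^[(i : ℕ)] (f j) =
        ∑ l : Fin n, if l = i then (Z : K → K)^[(l : ℕ)] (f j) else 0 := by
      rw [Finset.sum_ite_eq' Finset.univ i]; simp
    rw [h2, ← Finset.sum_add_distrib]
    refine Finset.sum_congr rfl fun l _ => ?_
    by_cases hl : l = i
    · subst hl; simp
    · simp only [if_neg hl]
      split_ifs <;> simp
  have hdet : L.det = 1 := by
    rw [Matrix.det_of_isLowerTriangular L]
    · refine Finset.prod_eq_one fun i _ => ?_
      simp [hL]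
    · intro i j hij
      have h1 : (i : Fin n) < j := hij
      simp only [hL, Matrix.of_apply]
      rw [if_neg (ne_of_gt h1), if_neg]
      exact not_lt.mpr (le_of_lt h1)
  rw [hprod, Matrix.det_mul, hdet, one_mul]

theorem ge_zero_prod (u : RVal K) {ι : Type} (s : Finset ι) (g : ι → K)
    (h : ∀ i ∈ s, u.Ge 0 (g i)) : u.Ge 0 (∏ i ∈ s, g i) := by
  classical
  induction s using Finset.induction_on with
  | empty => exact Or.inr (by rw [Finset.prod_empty, val_one])
  | insert i s hi ih =>
    rw [Finset.prod_insert hi]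
    have := ge_mul u (h i (Finset.mem_insert_self i s))
      (ih fun k hk => h k (Finset.mem_insert_of_mem hk))
    simpa using this

theorem ge_zero_sum (u : RVal K) {ι : Type} (s : Finset ι) (g : ι → K)
    (h : ∀ i ∈ s, u.Ge 0 (g i)) : u.Ge 0 (∑ i ∈ s, g i) := by
  classical
  induction s using Finset.induction_on with
  | empty => exact Or.inl Finset.sum_empty
  | insert i s hi ih =>
    rw [Finset.sum_insert hi]
    exact u.ge_add (h i (Finset.mem_insert_self i s))
      (ih fun k hk => h k (Finset.mem_insert_of_mem hk))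

theorem ge_zero_det (u : RVal K) {n : ℕ} (M : Matrix (Fin n) (Fin n) K)
    (h : ∀ i j, u.Ge 0 (M i j)) : u.Ge 0 M.det := by
  rw [Matrix.det_apply']
  refine ge_zero_sum u _ _ fun σ _ => ?_
  have h1 : u.Ge 0 (((Equiv.Perm.sign σ : ℤ) : K)) := by
    have := ge_const u ((Equiv.Perm.sign σ : ℤ) : ℂ)
    rwa [map_intCast] at this
  have := ge_mul u h1 (ge_zero_prod u Finset.univ (fun i => M (σ i) i) fun i _ => h _ _)
  simpa using this

theorem eig_prod {ξ : Derivation ℂ K K} {ι : Type} (s : Finset ι) (g : ι → K) (c : ι → ℝ)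
    (h : ∀ i ∈ s, ξ (g i) = (c i : ℂ) • g i) :
    ξ (∏ i ∈ s, g i) = ((∑ i ∈ s, c i : ℝ) : ℂ) • ∏ i ∈ s, g i := by
  classical
  induction s using Finset.induction_on with
  | empty => simp
  | insert i s hi ih =>
    rw [Finset.prod_insert hi, Finset.sum_insert hi]
    exact TWS.eig_mul (h i (Finset.mem_insert_self i s))
      (ih fun k hk => h k (Finset.mem_insert_of_mem hk))

omit [Algebra ℂ K] in
theorem prod_zpow_sum {p : K} (hp : p ≠ 0) {ι : Type} (s : Finset ι) (g : ι → ℤ) :
    ∏ i ∈ s, p ^ g i = p ^ (∑ i ∈ s, g i) := by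
  classical
  induction s using Finset.induction_on with
  | empty => simp
  | insert i s hi ih => rw [Finset.prod_insert hi, Finset.sum_insert hi, zpow_add₀ hp, ih]

theorem eig_det {ξ : Derivation ℂ K K} {n : ℕ} (M : Matrix (Fin n) (Fin n) K) (p q : Fin n → ℝ)
    (h : ∀ i j, ξ (M i j) = ((p i + q j : ℝ) : ℂ) • M i j) :
    ξ M.det = ((∑ i, p i + ∑ j, q j : ℝ) : ℂ) • M.det := by
  rw [Matrix.det_apply', map_sum, Finset.smul_sum]
  refine Finset.sum_congr rfl fun σ _ => ?_
  have h1 := eig_prod (ξ := ξ) Finset.univ (fun i => M (σ i) i) (fun i => p (σ i) + q i)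
    fun i _ => h _ _
  rw [Finset.sum_add_distrib, Equiv.sum_comp σ p] at h1
  rw [Derivation.leibniz, h1]
  have h2 : ξ (((Equiv.Perm.sign σ : ℤ) : K)) = 0 := Derivation.map_intCast ξ _
  rw [h2, smul_zero, add_zero, smul_eq_mul, mul_smul_comm]

end Pool.Agent.Helper79.TWS

namespace Pool.Agent.Helper79.D4

open Module Pool.Agent.Helper37.SD Pool.Agent.Helper20.TS Pool.Agent.Helper88.D4
open Pool.Agent.Helper79.TWS

theorem s_WRT : S_WRT := by
  intro K _ _ R ξ hC hn Z x N b ζ hZ hb hζ n f w hfR hfw hW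
  set s : ℕ := ∑ i : Fin n, (i : ℕ) with hs
  have hs2 : (s : ℝ) = n * (n - 1) / 2 := by
    have h1 : s * 2 = n * (n - 1) := by
      rw [hs, Fin.sum_univ_eq_sum_range (fun i => i) n, Finset.sum_range_id_mul_two]
    rcases n.eq_zero_or_pos with h | h
    · rw [h] at h1
      have h2 : s = 0 := by omega
      rw [h, h2]
      simp
    · have h2 : ((s * 2 : ℕ) : ℝ) = ((n * (n - 1) : ℕ) : ℝ) := by rw [h1]
      rw [Nat.cast_mul, Nat.cast_mul, Nat.cast_sub h] at h2
      push_cast at h2
      linarith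
  have hdet := det_tw Z x N f
  set W : K := wr Z f with hWdef
  -- the order of `W`
  have hR : x ^ s * W ^ N ∈ R := by
    by_contra hR
    obtain ⟨u, hu, hux⟩ := Helper11.D4.s_EX1 K R hC.frac hC.fg hn _ hR
    obtain ⟨t, ht, hZt⟩ := hZ.reg u hu
    obtain ⟨p, -, hp, hup⟩ := hu.unif
    have hF' : ∀ j, u.Ge 0 (f j) := fun j => by
      by_cases hF0 : f j = 0
      · exact Or.inl hF0
      · exact Or.inr (hu.nonneg _ (hfR j) hF0)
    have h1 : u.Ge 0 (Matrix.of fun (i j : Fin n) =>
        p ^ ((i : ℕ) * t : ℤ) * Helper88.D4.tw Z x N (f j) i).det :=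
      ge_zero_det u _ fun i j => tw_ge hp hup hZ.ne hZ.pos ht hZt (hF' j) i
    rw [show (Matrix.of fun (i j : Fin n) =>
        p ^ ((i : ℕ) * t : ℤ) * Helper88.D4.tw Z x N (f j) i) =
        Matrix.of fun (i j : Fin n) => p ^ ((i : ℕ) * t : ℤ) *
          (Matrix.of fun (i j : Fin n) => Helper88.D4.tw Z x N (f j) i) i j from rfl,
      Matrix.det_mul_column, hdet] at h1
    have h2 : ∏ i : Fin n, p ^ ((i : ℕ) * t : ℤ) = p ^ ((s : ℤ) * t) := by
      rw [prod_zpow_sum hp, hs, Nat.cast_sum, Finset.sum_mul]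
    rw [h2] at h1
    rcases h1 with h1 | h1
    · exact mul_ne_zero (zpow_ne_zero _ hp) hW h1
    · rw [u.map_mul _ _ (zpow_ne_zero _ hp) hW, val_zpow u hp, hup] at h1
      rw [u.map_mul _ _ (pow_ne_zero _ hZ.ne) (pow_ne_zero _ hW), TWS.val_pow u hZ.ne,
        TWS.val_pow u hW, ht] at hux
      push_cast at h1
      have hN' : (0 : ℝ) ≤ N := Nat.cast_nonneg _
      nlinarith
  -- the weight of `W`
  have hWw : ξ W = ((s * ζ + n * w : ℝ) : ℂ) • W := by
    have h1 := eig_det (ξ := ξ) (Matrix.of fun (i j : Fin n) => Helper88.D4.tw Z x N (f j) i)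
      (fun i => (i : ℕ) * ζ) (fun _ => w) (fun i j => by
        have := eig_tw hZ.ne hb hζ (hfw j) (N := N) i
        rw [add_comm] at this
        exact this)
    rw [hdet, ← Finset.sum_mul, Finset.sum_const, Finset.card_univ, Fintype.card_fin,
      nsmul_eq_mul, ← Nat.cast_sum, ← hs] at h1
    exact h1
  have h3 : x ^ s * W ^ N ≠ 0 := mul_ne_zero (pow_ne_zero _ hZ.ne) (pow_ne_zero _ hW)
  have h4 := Helper94.D4.eig_nonneg hC hR h3
    (TWS.eig_mul (TWS.eig_pow hb s) (TWS.eig_pow hWw N))
  have hN : (0 : ℝ) < N := Nat.cast_pos.2 hZ.pos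
  have h5 : (s : ℝ) * b + N * (s * ζ + n * w) = N * (n * w - (-(b / N + ζ)) * s) := by
    field_simp
    ring
  rw [h5] at h4
  rw [← hs2]
  exact nonneg_of_mul_nonneg_right h4 hN

end Pool.Agent.Helper79.D4
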