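import Pool.Agent.Helper76.D4.Stmts7
import Pool.Agent.Helper79.D4.WRT

/-!
# Project D4 (MP_e1889a_ag), stage 7: twisted iterates and Wronskians
-/

set_option autoImplicit false

namespace Pool.Agent.Helper79.TWX

open Module Pool.Agent.Helper37.SD Pool.Agent.Helper20.TS Pool.Agent.Helper88.D4
open Pool.Agent.Helper79.TWS Pool.Agent.Helper76.D4

variable {K : Type} [Field K] [Algebra ℂ K]

/-- the order of a twisted iterate -/
theorem tw_gex {u : RVal K} {p : K} (hp : p ≠ 0) (hup : u.val p = 1) {Z : Derivation ℂ K K}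
    {x : K} {N : ℕ} {t : ℤ} (hZ : ∀ F, u.Ge 0 F → u.Ge (-(t : ℝ)) (Z F))
    (he : u.Ge (-(t : ℝ)) ((1 / (N : K)) * (Z x / x) - (t : K) * (Z p / p)))
    {F : K} (hF : u.Ge 0 F) (j : ℕ) :
    u.Ge 0 (p ^ (j * t) * tw Z x N F j) := by
  set e : K := (1 / (N : K)) * (Z x / x) - (t : K) * (Z p / p) with hedef
  induction j with
  | zero => simpa [tw_zero] using hF
  | succ j ih =>
    have h1 : p ^ (((j + 1 : ℕ) : ℤ) * t) * tw Z x N F (j + 1) =
        p ^ t * (Z (p ^ (j * t : ℤ) * tw Z x N F j) +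
          (j : K) * e * (p ^ (j * t : ℤ) * tw Z x N F j)) := by
      have h0 : p ^ (((j + 1 : ℕ) : ℤ) * t) = p ^ t * p ^ (j * t : ℤ) := by
        rw [← zpow_add₀ hp]
        congr 1
        push_cast
        ring
      rw [h0, tw_succ, Derivation.leibniz, der_zpow Z hp, hedef]
      simp only [smul_eq_mul]
      push_cast
      ring
    rw [h1]
    have h2 : u.Ge (t : ℝ) (p ^ t) := by
      right
      rw [val_zpow u hp, hup, mul_one]
    have h3 : u.Ge (-(t : ℝ)) (Z (p ^ (j * t : ℤ) * tw Z x N F j)) := hZ _ ih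
    have hj : u.Ge 0 (j : K) := by
      have := ge_const u (j : ℂ)
      rwa [map_natCast] at this
    have h6 : u.Ge (-(t : ℝ)) ((j : K) * e * (p ^ (j * t : ℤ) * tw Z x N F j)) := by
      have := ge_mul u (ge_mul u hj he) ih
      simpa using this
    have := ge_mul u h2 (u.ge_add h3 h6)
    simpa using this

theorem tw_valx {u : RVal K} {p : K} (hp : p ≠ 0) (hup : u.val p = 1) {Z : Derivation ℂ K K}
    {x : K} (hx : x ≠ 0) {N : ℕ} {t : ℤ} (ht : (N : ℝ) * t ≤ u.val x)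
    (hZ : ∀ F, u.Ge 0 F → u.Ge (-(t : ℝ)) (Z F))
    (he : u.Ge (-(t : ℝ)) ((1 / (N : K)) * (Z x / x) - (t : K) * (Z p / p)))
    {F : K} (hF : u.Ge 0 F) (j : ℕ)
    (h0 : tw Z x N F j ≠ 0) : 0 ≤ u.val (x ^ j * tw Z x N F j ^ N) := by
  rw [u.map_mul _ _ (pow_ne_zero _ hx) (pow_ne_zero _ h0), val_pow u hx, val_pow u h0]
  rcases tw_gex hp hup hZ he hF j with h | h
  · exact absurd h (mul_ne_zero (zpow_ne_zero _ hp) h0)
  · rw [u.map_mul _ _ (zpow_ne_zero _ hp) h0, val_zpow u hp, hup] at h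
    push_cast at h
    have hN' : (0 : ℝ) ≤ N := Nat.cast_nonneg _
    have hj' : (0 : ℝ) ≤ j := Nat.cast_nonneg _
    have h1 := mul_le_mul_of_nonneg_left ht hj'
    have h2 := mul_nonneg hN' h
    linarith

theorem tw_hx (Z : Derivation ℂ K K) (x : K) (N : ℕ) {h : K} (hh : Z h = 0) (F : K) (j : ℕ) :
    tw Z x N (F * h) j = tw Z x N F j * h := by
  induction j with
  | zero => rfl
  | succ j ih =>
    rw [tw_succ, tw_succ, ih, Derivation.leibniz, hh]
    simp only [smul_eq_mul]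
    ring

end Pool.Agent.Helper79.TWX

namespace Pool.Agent.Helper79.D4

open Module Pool.Agent.Helper37.SD Pool.Agent.Helper20.TS Pool.Agent.Helper88.D4
open Pool.Agent.Helper79.TWS Pool.Agent.Helper79.TWX Pool.Agent.Helper76.D4

theorem s_TWx (hDG : S_DG) : S_TWx := by
  intro K _ _ R ξ J a hC4 Z x N b ζ hZ hb hζ
  have hC : IsCone R ξ := hC4.toIsCone
  have hn : Normal R := hC4.normal
  have hA : ∀ F ∈ R, ∀ j, x ^ j * Helper88.D4.tw Z x N F j ^ N ∈ R := by
    intro F hF j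
    by_cases h0 : Helper88.D4.tw Z x N F j = 0
    · rw [h0, zero_pow hZ.pos.ne', mul_zero]
      exact R.zero_mem
    by_contra hR
    obtain ⟨u, hu, hux⟩ := Helper11.D4.s_EX1 K R hC.frac hC.fg hn _ hR
    obtain ⟨t, ht, hZt⟩ := hZ.reg u hu
    obtain ⟨p, -, hp, hup⟩ := hu.unif
    have he := hDG K R ξ J a hC4 Z _ hZ.dvz u hu t hZt p hp hup
    have hF' : u.Ge 0 F := by
      by_cases hF0 : F = 0
      · exact Or.inl hF0
      · exact Or.inr (hu.nonneg F hF hF0)
    exact absurd (tw_valx hp hup hZ.ne ht hZt he hF' j h0) (not_le.2 hux)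
  refine ⟨hA, fun F w hF j => eig_tw hZ.ne hb hζ hF j, ?_, fun F G j => tw_add Z x N F G j,
    fun F G j => tw_mul Z x N F G j, fun h hh F j => tw_hx Z x N hh F j⟩
  intro F hF w hw j hj
  by_contra h0
  have hN : (0 : ℝ) < N := Nat.cast_pos.2 hZ.pos
  have h1 := hA F hF j
  have h2 : x ^ j * Helper88.D4.tw Z x N F j ^ N ≠ 0 :=
    mul_ne_zero (pow_ne_zero _ hZ.ne) (pow_ne_zero _ h0)
  have h3 : ξ (x ^ j * Helper88.D4.tw Z x N F j ^ N) =
      ((j * b + N * (w + j * ζ) : ℝ) : ℂ) • (x ^ j * Helper88.D4.tw Z x N F j ^ N) :=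
    TWS.eig_mul (TWS.eig_pow hb j) (TWS.eig_pow (eig_tw hZ.ne hb hζ hw j) N)
  have h4 := Helper94.D4.eig_nonneg hC h1 h2 h3
  have h5 : (j : ℝ) * b + N * (w + j * ζ) = N * (w - j * (-(b / N + ζ))) := by
    field_simp
    ring
  rw [h5] at h4
  have h6 : N * (w - j * (-(b / N + ζ))) < 0 := mul_neg_of_pos_of_neg hN (by linarith)
  linarith

theorem s_WRx (hDG : S_DG) : S_WRx := by
  intro K _ _ R ξ J a hC4 Z x N b ζ hZ hb hζ n f w hfR hfw hW
  have hC : IsCone R ξ := hC4.toIsCone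
  have hn : Normal R := hC4.normal
  set s : ℕ := ∑ i : Fin n, (i : ℕ) with hs
  have hs2 : (s : ℝ) = n * (n - 1) / 2 := by
    have h1 : s * 2 = n * (n - 1) := by
      rw [hs, Fin.sum_univ_eq_sum_range (fun i => i) n, Finset.sum_range_id_mul_two]
    rcases n.eq_zero_or_pos with h | h
    · rw [h] at h1
      have h2 : s = 0 := by omega
      rw [h, h2]
      simp
    · have h2 : ((s * 2 : ℕ) : ℝ) = ((n * (n - 1) : ℕ) : ℝ) := by rw [h1]
      rw [Nat.cast_mul, Nat.cast_mul, Nat.cast_sub h] at h2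
      push_cast at h2
      linarith
  have hdet := det_tw Z x N f
  set W : K := wr Z f with hWdef
  -- the order of `W`
  have hR : x ^ s * W ^ N ∈ R := by
    by_contra hR
    obtain ⟨u, hu, hux⟩ := Helper11.D4.s_EX1 K R hC.frac hC.fg hn _ hR
    obtain ⟨t, ht, hZt⟩ := hZ.reg u hu
    obtain ⟨p, -, hp, hup⟩ := hu.unif
    have he := hDG K R ξ J a hC4 Z _ hZ.dvz u hu t hZt p hp hup
    have hF' : ∀ j, u.Ge 0 (f j) := fun j => by
      by_cases hF0 : f j = 0
      · exact Or.inl hF0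
      · exact Or.inr (hu.nonneg _ (hfR j) hF0)
    have h1 : u.Ge 0 (Matrix.of fun (i j : Fin n) =>
        p ^ ((i : ℕ) * t : ℤ) * Helper88.D4.tw Z x N (f j) i).det :=
      ge_zero_det u _ fun i j => tw_gex hp hup hZt he (hF' j) i
    rw [show (Matrix.of fun (i j : Fin n) =>
        p ^ ((i : ℕ) * t : ℤ) * Helper88.D4.tw Z x N (f j) i) =
        Matrix.of fun (i j : Fin n) => p ^ ((i : ℕ) * t : ℤ) *
          (Matrix.of fun (i j : Fin n) => Helper88.D4.tw Z x N (f j) i) i j from rfl,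
      Matrix.det_mul_column, hdet] at h1
    have h2 : ∏ i : Fin n, p ^ ((i : ℕ) * t : ℤ) = p ^ ((s : ℤ) * t) := by
      rw [prod_zpow_sum hp, hs, Nat.cast_sum, Finset.sum_mul]
    rw [h2] at h1
    rcases h1 with h1 | h1
    · exact mul_ne_zero (zpow_ne_zero _ hp) hW h1
    · rw [u.map_mul _ _ (zpow_ne_zero _ hp) hW, val_zpow u hp, hup] at h1
      rw [u.map_mul _ _ (pow_ne_zero _ hZ.ne) (pow_ne_zero _ hW), TWS.val_pow u hZ.ne,
        TWS.val_pow u hW] at hux
      push_cast at h1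
      have hN' : (0 : ℝ) ≤ N := Nat.cast_nonneg _
      have hs' : (0 : ℝ) ≤ s := Nat.cast_nonneg _
      have h5 := mul_le_mul_of_nonneg_left ht hs'
      have h6 := mul_nonneg hN' h1
      linarith
  -- the weight of `W`
  have hWw : ξ W = ((s * ζ + n * w : ℝ) : ℂ) • W := by
    have h1 := eig_det (ξ := ξ) (Matrix.of fun (i j : Fin n) => Helper88.D4.tw Z x N (f j) i)
      (fun i => (i : ℕ) * ζ) (fun _ => w) (fun i j => by
        have := eig_tw hZ.ne hb hζ (hfw j) (N := N) i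
        rw [add_comm] at this
        exact this)
    rw [hdet, ← Finset.sum_mul, Finset.sum_const, Finset.card_univ, Fintype.card_fin,
      nsmul_eq_mul, ← Nat.cast_sum, ← hs] at h1
    exact h1
  have h3 : x ^ s * W ^ N ≠ 0 := mul_ne_zero (pow_ne_zero _ hZ.ne) (pow_ne_zero _ hW)
  have h4 := Helper94.D4.eig_nonneg hC hR h3
    (TWS.eig_mul (TWS.eig_pow hb s) (TWS.eig_pow hWw N))
  have hN : (0 : ℝ) < N := Nat.cast_pos.2 hZ.pos
  have h5 : (s : ℝ) * b + N * (s * ζ + n * w) = N * (n * w - (-(b / N + ζ)) * s) := by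
    field_simp
    ring
  rw [h5] at h4
  rw [← hs2]
  exact nonneg_of_mul_nonneg_right h4 hN

end Pool.Agent.Helper79.D4
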