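import Pool.Agent.Helper79.D4.WRT
import Pool.Agent.Helper48.D4.Cnt
import Pool.Agent.Helper88.D4.CM

/-!
# Project D4 (MP_e1889a_ag): a first integral of degree `0` of a fractional derivation
-/

set_option autoImplicit false

namespace Pool.Agent.Helper79.D4

open Module Pool.Agent.Helper37.SD Pool.Agent.Helper20.TS Pool.Agent.Helper88.D4
open Pool.Agent.Helper79.TWS

theorem s_KH : S_KH := by
  intro K _ _ R ξ J v a V H c hC hM hT Z κ x N b ζ hκ hZ hb hζ hd
  by_contra hcon
  push Not at hcon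
  set d : ℝ := -(b / N + ζ) with hd'
  have hcst : ∀ h, (∀ i, H i h = 0) → Z h = 0 → Cst h := fun h h1 h2 => by
    by_contra h3
    exact absurd h3 (not_not.2 (hcon h h1 h2))
  have hZw : ∀ m φ, IsW H m φ → IsW H (m + fun _ => κ) (Z φ) := by
    intro m φ hφ i
    obtain rfl : i = 0 := Subsingleton.elim _ _
    have h1 : H 0 (Z φ) - Z (H 0 φ) = (κ : ℂ) • Z φ := by
      rw [← Derivation.commutator_apply, hκ, Derivation.smul_apply]
    have h2 : H 0 (Z φ) = (κ : ℂ) • Z φ + Z (H 0 φ) := by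
      rw [← h1]
      ring
    rw [h2, hφ 0, Derivation.map_smul, ← add_smul, Pi.add_apply]
    congr 1
    push_cast
    ring
  obtain ⟨m, hm, hbig, hfin⟩ := Helper48.D4.s_CNT K R ξ J v a V 1 H c hC hM.toMin hT le_rfl
    (by norm_num) (2 / d + 1)
  set n : ℕ := finrank ℂ (Wsp R H m) with hn
  set w : ℝ := ∑ i, c i * m i with hw
  let bs := Module.finBasis ℂ (Wsp R H m)
  let f : Fin n → K := fun j => (bs j : K)
  have hfR : ∀ j, f j ∈ R := fun j => (bs j).2.1
  have hfw : ∀ j, IsW H m (f j) := fun j => (bs j).2.2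
  have hfli : LinearIndependent ℂ f := bs.linearIndependent.map' (Wsp R H m).subtype
    (Submodule.ker_subtype _)
  have hW : wr Z f ≠ 0 := Helper13.D4.s_WN K 1 H Z (fun _ => κ) hZw hcst n f m hfw hfli
  have h1 := s_WRT K R ξ hC.toIsCone hC.normal Z x N b ζ hZ hb hζ n f w hfR
    (fun j => Helper48.D4.xi_w hT (hfw j)) hW
  rw [← hd'] at h1
  have hB : (0 : ℝ) < 2 / d + 1 := by positivity
  have hn0 : (0 : ℝ) < n := lt_trans (by positivity) hbig
  have h2 : (n : ℝ) ≤ 2 / d * w + 1 := by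
    have h3 : 0 ≤ (n : ℝ) * (w - d * ((n - 1) / 2)) := by linarith
    have h4 : 0 ≤ w - d * (((n : ℝ) - 1) / 2) := nonneg_of_mul_nonneg_right h3 hn0
    have h5 : (n : ℝ) - 1 ≤ 2 / d * w := by
      rw [div_mul_eq_mul_div, le_div_iff₀ hd]
      linarith
    linarith
  have h6 : 2 / d * w + 1 ≤ (2 / d + 1) * (w + 1) ^ 2 := by
    have : 0 < 2 / d := by positivity
    nlinarith [mul_pos this hm, mul_pos hm hm, mul_pos this (mul_pos hm hm)]
  have h7 : (2 / d + 1) * (w + 1) ^ (3 - 1) < (n : ℝ) := hbig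
  norm_num at h7
  linarith

end Pool.Agent.Helper79.D4
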