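import Pool.Agent.Helper88.D4.Stmts4
import Pool.Agent.Helper79.D4.R1

/-!
# D4: the torus of a derivation of degree 0 (S_R1s)

The torus of `R1.lean` (coordinate functions of the group generated by the pairs (degree,
generalized eigenvalue of `E`)), together with the coordinates of the degree and of the
eigenvalue: `E` minus its semisimple part is locally nilpotent.
-/

set_option autoImplicit false

namespace Pool.Agent.Helper79.D4

open Module Filter Topology Pool.Agent.Helper37.SD Pool.Agent.Helper20.TS Pool.Agent.Helper88.D4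

variable {K : Type} [Field K] [Algebra ℂ K] {R : Subalgebra ℂ K} {ξ : Derivation ℂ K K}

theorem tw_sp {E : Derivation ℂ K K} (hp : Pres R E) (hE : ⁅ξ, E⁆ = 0) {w : ℝ × ℂ} {x : K}
    (hx : x ∈ Sp R ξ E w) : tw E w.2 x ∈ Sp R ξ E w := by
  rw [mem_sp] at hx ⊢
  obtain ⟨hx1, n, hn⟩ := hx
  refine ⟨tw_stable hp hE w.2 (c := w.1) hx1, n, ?_⟩
  rw [← Module.End.mul_apply, ← pow_succ, pow_succ', Module.End.mul_apply, hn, map_zero]

theorem der_sp {E : Derivation ℂ K K} (hp : Pres R E) (hE : ⁅ξ, E⁆ = 0) {w : ℝ × ℂ} {x : K}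
    (hx : x ∈ Sp R ξ E w) : E x ∈ Sp R ξ E w := by
  have h1 : E x = tw E w.2 x + w.2 • x := by rw [tw_apply, sub_add_cancel]
  rw [h1]
  exact Submodule.add_mem _ (tw_sp hp hE hx) (Submodule.smul_mem _ _ hx)

theorem s_R1s : S_R1s := by
  intro K _ _ R ξ h E hp hE
  classical
  obtain ⟨W, hW, hspan⟩ := exists_weights h hp hE
  have hfin : Module.Finite ℤ (Submodule.span ℤ (W : Set (ℝ × ℂ))) :=
    Module.Finite.span_finset ℤ W
  have hfree : Module.Free ℤ (Submodule.span ℤ (W : Set (ℝ × ℂ))) := inferInstance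
  obtain ⟨r, ⟨b⟩⟩ : ∃ r : ℕ, Nonempty (Basis (Fin r) ℤ (Submodule.span ℤ (W : Set (ℝ × ℂ)))) :=
    ⟨_, ⟨Module.finBasis ℤ _⟩⟩
  have hind : iSupIndep fun γ : Submodule.span ℤ (W : Set (ℝ × ℂ)) => Sp R ξ E (γ : ℝ × ℂ) :=
    (sp_indep hE).comp Subtype.val_injective
  have hSR : ∀ (w : ℝ × ℂ) (x : K), x ∈ Sp R ξ E w → x ∈ R := fun w x hx => hx.1.1
  have hder : ∀ i : Fin r, ∃ D : Derivation ℂ K K,
      ∀ γ : Submodule.span ℤ (W : Set (ℝ × ℂ)), ∀ x ∈ Sp R ξ E (γ : ℝ × ℂ), x ∈ R →
        D x = ((b.repr γ i : ℤ) : ℂ) • x := fun i =>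
    exists_grading_der h.frac (fun γ : Submodule.span ℤ (W : Set (ℝ × ℂ)) =>
      Sp R ξ E (γ : ℝ × ℂ)) hspan hind (fun g h x y hx hy => sp_mul hx hy)
      (fun γ => ((b.repr γ i : ℤ) : ℂ)) (fun g h => by simp)
  choose H hH using hder
  have hH' : ∀ (i : Fin r) (γ : Submodule.span ℤ (W : Set (ℝ × ℂ))) (x : K),
      x ∈ Sp R ξ E (γ : ℝ × ℂ) → H i x = ((b.repr γ i : ℤ) : ℂ) • x :=
    fun i γ x hx => hH i γ x hx (hSR _ x hx)
  have hvan : ∀ D : Derivation ℂ K K, (∀ γ : Submodule.span ℤ (W : Set (ℝ × ℂ)),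
      ∀ x ∈ Sp R ξ E (γ : ℝ × ℂ), D x = 0) → D = 0 := by
    intro D hD
    refine der_eq_zero h.frac fun x hx => ?_
    have hx' := hspan x hx
    clear hx
    induction hx' using Submodule.iSup_induction' with
    | mem g x hx => exact hD g x hx
    | zero => exact map_zero D
    | add x y _ _ hx hy => rw [map_add, hx, hy, add_zero]
  have hdec : ∀ γ : Submodule.span ℤ (W : Set (ℝ × ℂ)), (γ : ℝ × ℂ) =
      ∑ i, (b.repr γ i : ℤ) • (b i : ℝ × ℂ) := by
    intro γ
    conv_lhs => rw [← b.sum_repr γ]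
    rw [AddSubmonoidClass.coe_finsetSum]
    rfl
  refine ⟨r, H, fun i => (b i : ℝ × ℂ).1, fun i => (b i : ℝ × ℂ).2, ⟨?_, ?_, ?_, ?_⟩, ?_, ?_, ?_⟩
  · intro i j
    refine hvan _ fun γ x hx => ?_
    rw [Derivation.commutator_apply, hH' j γ x hx, hH' i γ x hx, Derivation.map_smul,
      Derivation.map_smul, hH' j γ x hx, hH' i γ x hx, smul_comm, sub_self]
  · intro x hx
    have hx' := hspan x hx
    clear hx
    induction hx' using Submodule.iSup_induction' with
    | mem g x hx =>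
      exact Submodule.subset_span ⟨hSR _ x hx, fun i => b.repr g i, fun i => hH' i g x hx⟩
    | zero => exact Submodule.zero_mem _
    | add x y _ _ hx hy => exact Submodule.add_mem _ hx hy
  · rw [← sub_eq_zero]
    refine hvan _ fun γ x hx => ?_
    have h1 : (∑ i, (((b i : ℝ × ℂ).1 : ℝ) : ℂ) • H i : Derivation ℂ K K) x =
        ∑ i, (((b i : ℝ × ℂ).1 : ℝ) : ℂ) • ((b.repr γ i : ℤ) : ℂ) • x := by
      rw [der_sum_apply]
      refine Finset.sum_congr rfl fun i _ => ?_
      rw [Derivation.smul_apply, hH' i γ x hx]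
    rw [Derivation.sub_apply, h1, hx.1.2, sub_eq_zero]
    simp only [smul_smul]
    rw [← Finset.sum_smul]
    congr 1
    have h2 := congrArg Prod.fst (hdec γ)
    rw [Prod.fst_sum] at h2
    rw [h2]
    push_cast
    refine Finset.sum_congr rfl fun i _ => ?_
    rw [Prod.smul_fst, zsmul_eq_mul]
    push_cast
    ring
  · rw [Fintype.linearIndependent_iff]
    intro a ha j
    have h1 : ∀ γ : ℝ × ℂ, ∀ hγ : γ ∈ Submodule.span ℤ (W : Set (ℝ × ℂ)),
        ∑ i, a i * ((b.repr ⟨γ, hγ⟩ i : ℤ) : ℂ) = 0 := by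
      intro γ hγ
      induction hγ using Submodule.span_induction with
      | mem w hw =>
        obtain ⟨y, hy, hy0⟩ := hW w hw
        have h2 : (∑ i, a i • H i : Derivation ℂ K K) y = 0 := by rw [ha]; rfl
        rw [der_sum_apply] at h2
        have h3 : ∀ i, (a i • H i : Derivation ℂ K K) y =
            (a i * ((b.repr ⟨w, Submodule.subset_span hw⟩ i : ℤ) : ℂ)) • y := by
          intro i
          rw [Derivation.smul_apply, hH' i ⟨w, Submodule.subset_span hw⟩ y hy, smul_smul]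
        simp only [h3] at h2
        rw [← Finset.sum_smul] at h2
        exact (smul_eq_zero.mp h2).resolve_right hy0
      | zero =>
        have h2 : (⟨0, Submodule.zero_mem _⟩ : Submodule.span ℤ (W : Set (ℝ × ℂ))) = 0 := rfl
        simp [h2]
      | add x y hx hy ihx ihy =>
        have h2 : (⟨x + y, Submodule.add_mem _ hx hy⟩ : Submodule.span ℤ (W : Set (ℝ × ℂ))) =
          ⟨x, hx⟩ + ⟨y, hy⟩ := rfl
        rw [h2]
        simp only [map_add, Finsupp.add_apply, Int.cast_add, mul_add]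
        rw [Finset.sum_add_distrib, ihx, ihy, add_zero]
      | smul z x hx ihx =>
        have h2 : (⟨z • x, Submodule.smul_mem _ z hx⟩ : Submodule.span ℤ (W : Set (ℝ × ℂ))) =
          z • ⟨x, hx⟩ := rfl
        rw [h2]
        simp only [map_smul, Finsupp.smul_apply, smul_eq_mul, Int.cast_mul]
        have h3 : ∑ i, a i * ((z : ℂ) * ((b.repr ⟨x, hx⟩ i : ℤ) : ℂ)) =
            (z : ℂ) * ∑ i, a i * ((b.repr ⟨x, hx⟩ i : ℤ) : ℂ) := by
          rw [Finset.mul_sum]
          exact Finset.sum_congr rfl fun i _ => by ring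
        rw [h3, ihx, mul_zero]
    have h2 := h1 (b j : ℝ × ℂ) (b j).2
    have h3 : (⟨(b j : ℝ × ℂ), (b j).2⟩ : Submodule.span ℤ (W : Set (ℝ × ℂ))) = b j := rfl
    rw [h3, b.repr_self, Finset.sum_eq_single j] at h2
    · simpa using h2
    · intro i _ hij
      rw [Finsupp.single_eq_of_ne hij]
      simp
    · intro hj
      exact absurd (Finset.mem_univ j) hj
  · intro i x hx
    have hx' := hspan x hx
    clear hx
    induction hx' using Submodule.iSup_induction' with
    | mem g x hx =>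
      rw [hH' i g x hx]
      exact R.smul_mem (hSR _ x hx) _
    | zero => rw [map_zero]; exact R.zero_mem
    | add x y _ _ hx hy => rw [map_add]; exact R.add_mem hx hy
  · intro i
    refine hvan _ fun γ x hx => ?_
    rw [Derivation.commutator_apply, hH' i γ x hx, hH' i γ _ (der_sp hp hE hx),
      Derivation.map_smul, sub_self]
  · have hN : ∀ (γ : Submodule.span ℤ (W : Set (ℝ × ℂ))) (x : K), x ∈ Sp R ξ E (γ : ℝ × ℂ) →
        (E - ∑ i, (b i : ℝ × ℂ).2 • H i : Derivation ℂ K K) x = tw E (γ : ℝ × ℂ).2 x := by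
      intro γ x hx
      have h1 : (∑ i, (b i : ℝ × ℂ).2 • H i : Derivation ℂ K K) x =
          ∑ i, (b i : ℝ × ℂ).2 • ((b.repr γ i : ℤ) : ℂ) • x := by
        rw [der_sum_apply]
        refine Finset.sum_congr rfl fun i _ => ?_
        rw [Derivation.smul_apply, hH' i γ x hx]
      rw [Derivation.sub_apply, h1, tw_apply]
      congr 1
      simp only [smul_smul]
      rw [← Finset.sum_smul]
      congr 1
      have h2 := congrArg Prod.snd (hdec γ)
      rw [Prod.snd_sum] at h2
      rw [h2]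
      refine Finset.sum_congr rfl fun i _ => ?_
      rw [Prod.smul_snd, zsmul_eq_mul]
      ring
    have hNn : ∀ (n : ℕ) (γ : Submodule.span ℤ (W : Set (ℝ × ℂ))) (x : K),
        x ∈ Sp R ξ E (γ : ℝ × ℂ) →
          ((E - ∑ i, (b i : ℝ × ℂ).2 • H i : Derivation ℂ K K) : K → K)^[n] x =
            (tw E (γ : ℝ × ℂ).2 ^ n) x := by
      intro n
      induction n with
      | zero => intro γ x _; rfl
      | succ n ih =>
        intro γ x hx
        rw [Function.iterate_succ_apply, hN γ x hx, ih γ _ (tw_sp hp hE hx), pow_succ]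
        rfl
    intro x hx
    have hx' := hspan x hx
    clear hx
    induction hx' using Submodule.iSup_induction' with
    | mem g x hx =>
      obtain ⟨_, n, hn⟩ := mem_sp.mp hx
      exact ⟨n, by rw [hNn n g x hx]; exact hn⟩
    | zero => exact ⟨0, rfl⟩
    | add x y _ _ hx hy =>
      obtain ⟨n, hn⟩ := hx
      obtain ⟨m, hm⟩ := hy
      refine ⟨n + m, ?_⟩
      rw [iter_add, iter_zero_of_le (Nat.le_add_right n m) hn,
        iter_zero_of_le (Nat.le_add_left m n) hm, add_zero]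

end Pool.Agent.Helper79.D4
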